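import Pool.Agent.helper52.WP.SpecT

/-! wp:CTS. The chain property at a point for one datum. -/

set_option autoImplicit false

open Complex Metric Set Filter Topology MeasureTheory
open V3S (UF)
open WP
open Pool.Agent.helper16.Multibrot

noncomputable section

namespace WPT

theorem CTS (hSTS : STS_stmt) (hSTC : STC_stmt) (hKCB : KCB_stmt) (hPHC : PHC_stmt)
    (hTAX : TAX_stmt) : CTS_stmt := by
  obtain ⟨K, hK1, hKCB⟩ := hKCB
  intro C₂ C₃ r hC₂ hC₃ hr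
  have hπ := Real.pi_pos
  have hπr : 0 < 1 / (Real.pi * r ^ 2) := by positivity
  have hKC : 0 < K * C₂ := by positivity
  refine ⟨C₃ + 1 / (Real.pi * r ^ 2) + 2 * C₂ + K * C₂, by positivity, ?_⟩
  intro n C A D hG x₀ ρ χ Ψ hρ hSt hsg hder hΨ hε hτ
  obtain ⟨hLev, hEq, -, -, -⟩ := hSTS n C A D hG x₀ ρ r χ Ψ hSt
  have hs := hSTC n C A D hG x₀ ρ r χ Ψ hSt
  have hom0 : 0 ≤ D.om := hG.om0.le
  have h1 : ∀ w ∈ ball (0 : ℂ) (2 * r), 1 - ‖XPS.tau D.H (tw D Ψ χ) D.k w‖ ≤ C₃ * D.om := by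
    intro w hw
    rw [hTAX n C A D hG x₀ ρ r χ Ψ hSt w hw]
    have h2 := hτ (D.xx (χ w)) (hSt.mp w hw)
    have h3 := norm_sub_norm_le (1 : ℂ)
      (deriv Ψ (D.xx (χ w)) ^ 2 * D.B (Ψ (D.xx (χ w))) / D.B (D.xx (χ w)))
    rw [norm_one, norm_sub_rev] at h3
    linarith
  have hsum := hs (C₃ * D.om) h1
  obtain ⟨Φ, hΦd, hΦ⟩ := hPHC n C A D hG x₀ ρ r χ Ψ hSt C₂ D.om hC₂ hom0 hsg hε hΨ
  have hk := hKCB n C A D hG x₀ ρ r χ Ψ hSt C₂ hC₂ hρ hder hsg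
  have hsub : ball (0 : ℂ) r ⊆ ball (0 : ℂ) (2 * r) := ball_subset_ball (by linarith)
  refine ⟨Φ, ?_⟩
  refine
    { nat := hSt.nat
      val := hSt.val
      aff := hSt.aff
      lev := ?_
      g0 := hEq.mono hsub
      sum := ?_
      phd := hΦd
      phi := ?_
      kc := ?_ }
  · refine ⟨⟨hLev.nat0.diff.mono hsub, fun w hw => hLev.nat0.av w (hsub hw),
      fun w hw => hLev.nat0.eq w (hsub hw)⟩, fun q hq => (hLev.diff q hq).mono hsub,
      fun q hq w hw => hLev.rel q hq w (hsub hw), fun q hq w hw => ?_⟩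
    exact hLev.av q hq w (hsub hw)
  · intro w hw
    have hE : D.E / (Real.pi * r ^ 2) ≤ 1 / (Real.pi * r ^ 2) * D.om := by
      rw [div_eq_mul_one_div, mul_comm]
      exact mul_le_mul_of_nonneg_left hG.Eom hπr.le
    calc _ ≤ C₃ * D.om + D.E / (Real.pi * r ^ 2) := hsum w hw
      _ ≤ C₃ * D.om + 1 / (Real.pi * r ^ 2) * D.om := by linarith
      _ ≤ (C₃ + 1 / (Real.pi * r ^ 2) + 2 * C₂ + K * C₂) * D.om := by nlinarith
  · intro w hw
    obtain ⟨h2, h3, h4⟩ := hΦ w hw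
    refine ⟨h2, ?_, h4⟩
    calc ‖Φ w - w‖ ≤ 2 * C₂ * D.om := h3
      _ ≤ (C₃ + 1 / (Real.pi * r ^ 2) + 2 * C₂ + K * C₂) * D.om := by
        apply mul_le_mul_of_nonneg_right _ hom0
        linarith
  · intro q hq1 hq2
    refine le_trans (hk q hq1 hq2) (mul_le_mul_of_nonneg_right ?_ (norm_nonneg _))
    linarith

end WPT
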