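import Pool.Agent.helper52.WP.SpecA

set_option autoImplicit false

open Complex Metric Set Filter Topology MeasureTheory
open V3S (UF)
open WP

noncomputable section

namespace WPA

theorem HRN_log {g : ℂ → ℂ} {a : ℂ} {r : ℝ} (hr : 0 < r) (hg : DifferentiableOn ℂ g (ball a r))
    (hne : ∀ z ∈ ball a r, g z ≠ 0) :
    ∃ h : ℂ → ℂ, DifferentiableOn ℂ h (ball a r) ∧ ∀ z ∈ ball a r, Complex.exp (h z) = g z := by
  have hgd : DifferentiableOn ℂ (deriv g) (ball a r) := hg.deriv isOpen_ball
  have hKd : DifferentiableOn ℂ (fun z => deriv g z / g z) (ball a r) := hgd.div hg hne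
  obtain ⟨h, h0, hh⟩ := hKd.isExactOn_ball.with_val_at a (Complex.log (g a))
  have hz0 : a ∈ ball a r := mem_ball_self hr
  have hpc : IsPreconnected (ball a r) := (convex_ball a r).isPreconnected
  refine ⟨h, fun z hz => (hh z hz).differentiableAt.differentiableWithinAt, ?_⟩
  intro w hw
  have hq : ∀ z ∈ ball a r, HasDerivAt (fun z => g z * Complex.exp (-(h z))) 0 z := by
    intro z hz
    have h1 : HasDerivAt g (deriv g z) z :=
      ((hg z hz).differentiableAt (isOpen_ball.mem_nhds hz)).hasDerivAt
    have h2 := (hh z hz).fun_neg.cexp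
    have h3 := h1.fun_mul h2
    have hgz := hne z hz
    have h4 : deriv g z * Complex.exp (-(h z)) +
        g z * (Complex.exp (-(h z)) * -(deriv g z / g z)) = 0 := by
      field_simp
      ring
    rw [h4] at h3
    exact h3
  have h5 : g w * Complex.exp (-(h w)) = g a * Complex.exp (-(h a)) := by
    apply isOpen_ball.is_const_of_deriv_eq_zero hpc
      (f := fun z => g z * Complex.exp (-(h z)))
      (fun z hz => (hq z hz).differentiableAt.differentiableWithinAt)
      (fun z hz => (hq z hz).deriv) hw hz0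
  have h6 : g a * Complex.exp (-(h a)) = 1 := by
    rw [h0, Complex.exp_neg, Complex.exp_log (hne a hz0), mul_inv_cancel₀ (hne a hz0)]
  rw [h6, Complex.exp_neg] at h5
  have h7 := Complex.exp_ne_zero (h w)
  field_simp at h5
  exact h5.symm

/-- Schwarz for maps to the right half plane. -/
theorem HRN_half {W : ℂ → ℂ} {a : ℂ} {R : ℝ} (hR : 0 < R) (hW : DifferentiableOn ℂ W (ball a R))
    (hpos : ∀ x ∈ ball a R, 0 < (W x).re) (x : ℂ) (hx : x ∈ ball a (R / 4)) :
    (W x).re ≤ 5 / 3 * (W a).re := by
  have ha : a ∈ ball a R := mem_ball_self hR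
  have ha0 := hpos a ha
  have hxR : x ∈ ball a R := ball_subset_ball (by linarith) hx
  set φ : ℂ → ℂ := fun z => (W z - W a) / (W z + (starRingEnd ℂ) (W a)) with hφ
  have hden : ∀ z ∈ ball a R, W z + (starRingEnd ℂ) (W a) ≠ 0 := by
    intro z hz h
    have h1 := congrArg Complex.re h
    simp only [Complex.add_re, Complex.conj_re, Complex.zero_re] at h1
    have := hpos z hz
    linarith
  have hsq : ∀ z, ‖W z + (starRingEnd ℂ) (W a)‖ ^ 2 - ‖W z - W a‖ ^ 2 = 4 * (W z).re * (W a).re := by
    intro z
    rw [← Complex.normSq_eq_norm_sq, ← Complex.normSq_eq_norm_sq, Complex.normSq_apply, Complex.normSq_apply]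
    simp only [Complex.add_re, Complex.conj_re, Complex.add_im, Complex.conj_im, Complex.sub_re, Complex.sub_im]
    ring
  have hφd : DifferentiableOn ℂ φ (ball a R) := by
    refine (hW.sub_const _).div (hW.add_const _) hden
  have hφa : φ a = 0 := by simp [hφ]
  have hmaps : MapsTo φ (ball a R) (ball (φ a) 1) := by
    intro z hz
    rw [hφa, mem_ball_zero_iff, hφ]
    simp only
    rw [norm_div, div_lt_one (norm_pos_iff.mpr (hden z hz))]
    have h1 := hsq z
    have h2 : 0 < 4 * (W z).re * (W a).re := by
      have := hpos z hz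
      positivity
    exact lt_of_pow_lt_pow_left₀ 2 (norm_nonneg _) (by linarith)
  have hS := Complex.dist_le_div_mul_dist_of_mapsTo_ball hφd (hmaps.mono_right ball_subset_closedBall) hxR
  rw [hφa, dist_zero_right] at hS
  have hx4 : dist x a < R / 4 := hx
  have hφx : ‖φ x‖ ≤ 1 / 4 := by
    refine hS.trans ?_
    rw [div_mul_eq_mul_div, one_mul, div_le_iff₀ hR]
    linarith
  have h1 : ‖W x - W a‖ ≤ 1 / 4 * ‖W x + (starRingEnd ℂ) (W a)‖ := by
    have h2 : φ x * (W x + (starRingEnd ℂ) (W a)) = W x - W a := by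
      rw [hφ]
      exact div_mul_cancel₀ _ (hden x hxR)
    rw [← h2, norm_mul]
    exact mul_le_mul_of_nonneg_right hφx (norm_nonneg _)
  have h3 : ‖W x - W a‖ ^ 2 ≤ (1 / 4 * ‖W x + (starRingEnd ℂ) (W a)‖) ^ 2 :=
    pow_le_pow_left₀ (norm_nonneg _) h1 2
  have e1 : ‖W x - W a‖ ^ 2 = ((W x).re - (W a).re) ^ 2 + ((W x).im - (W a).im) ^ 2 := by
    rw [← Complex.normSq_eq_norm_sq, Complex.normSq_apply]
    simp only [Complex.sub_re, Complex.sub_im]
    ring
  have e2 : ‖W x + (starRingEnd ℂ) (W a)‖ ^ 2 = ((W x).re + (W a).re) ^ 2 + ((W x).im - (W a).im) ^ 2 := by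
    rw [← Complex.normSq_eq_norm_sq, Complex.normSq_apply]
    simp only [Complex.add_re, Complex.add_im, Complex.conj_re, Complex.conj_im]
    ring
  rw [mul_pow, e1, e2] at h3
  have hx0 := hpos x hxR
  have h4 : ((W x).re - (W a).re) ^ 2 ≤ (1 / 4 * ((W x).re + (W a).re)) ^ 2 := by
    nlinarith [sq_nonneg ((W x).im - (W a).im)]
  have h5 : (W x).re - (W a).re ≤ 1 / 4 * ((W x).re + (W a).re) :=
    le_of_sq_le_sq h4 (by positivity) |> fun h => h
  linarith

theorem HRN : HRN_stmt := by
  intro G a R m hR hm hG hlow hGa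
  have h4 : ∀ x ∈ ball a (R / 4), ‖G x‖ ≤ 4 * m := by
    intro x hx
    have hne : ∀ z ∈ ball a R, G z ≠ 0 := by
      intro z hz h
      have := hlow z hz
      rw [h, norm_zero] at this
      linarith
    obtain ⟨h, hhd, hh⟩ := HRN_log hR hG hne
    have hnorm : ∀ z ∈ ball a R, ‖G z‖ = Real.exp (h z).re := by
      intro z hz
      rw [← hh z hz, Complex.norm_exp]
    have hm9 : 0 < 9 / 10 * m := by positivity
    set W : ℂ → ℂ := fun z => h z - (Real.log (9 / 10 * m) : ℂ) with hW
    have hWd : DifferentiableOn ℂ W (ball a R) := hhd.sub_const _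
    have hWre : ∀ z, (W z).re = (h z).re - Real.log (9 / 10 * m) := by
      intro z
      rw [hW]
      simp only [Complex.sub_re, Complex.ofReal_re]
    have hpos : ∀ z ∈ ball a R, 0 < (W z).re := by
      intro z hz
      rw [hWre]
      have h1 := hlow z hz
      rw [hnorm z hz] at h1
      have h2 : Real.log (9 / 10 * m) < (h z).re := by
        rw [Real.log_lt_iff_lt_exp hm9]
        linarith
      linarith
    have hxR : x ∈ ball a R := ball_subset_ball (by linarith) hx
    have ha : a ∈ ball a R := mem_ball_self hR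
    have h5 := HRN_half hR hWd hpos x hx
    rw [hWre, hWre] at h5
    have hae : (h a).re = Real.log (2 * m) := by
      rw [← hGa, hnorm a ha, Real.log_exp]
    rw [hae] at h5
    have hlog : Real.log (2 * m) - Real.log (9 / 10 * m) = Real.log (20 / 9) := by
      rw [← Real.log_div (by positivity) (by positivity)]
      congr 1
      field_simp
      norm_num
    rw [hlog] at h5
    rw [hnorm x hxR]
    have h6 : (h x).re ≤ Real.log (4 * m) := by
      have h7 : Real.log (9 / 10 * m) + 5 / 3 * Real.log (20 / 9) ≤ Real.log (4 * m) := by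
        have h8 : Real.log (4 * m) - Real.log (9 / 10 * m) = Real.log (40 / 9) := by
          rw [← Real.log_div (by positivity) (by positivity)]
          congr 1
          field_simp
          norm_num
        have h9 : 5 * Real.log (20 / 9) ≤ 3 * Real.log (40 / 9) := by
          rw [← Real.log_rpow (by norm_num), ← Real.log_rpow (by norm_num)]
          apply Real.log_le_log
          · positivity
          · rw [show (5 : ℝ) = ((5 : ℕ) : ℝ) by norm_num, show (3 : ℝ) = ((3 : ℕ) : ℝ) by norm_num,
              Real.rpow_natCast, Real.rpow_natCast]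
            norm_num
        linarith
      linarith
    calc Real.exp (h x).re ≤ Real.exp (Real.log (4 * m)) := Real.exp_le_exp.mpr h6
      _ = 4 * m := Real.exp_log (by positivity)
  refine ⟨h4, ?_⟩
  intro x hx
  have hR8 : 0 < R / 8 := by positivity
  have hxd : dist x a < R / 8 := hx
  have hsub : closedBall x (R / 8) ⊆ ball a (R / 4) := by
    intro y hy
    rw [mem_closedBall] at hy
    rw [mem_ball]
    calc dist y a ≤ dist y x + dist x a := dist_triangle _ _ _
      _ < R / 4 := by linarith
  have hd : DiffContOnCl ℂ G (ball x (R / 8)) := by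
    apply DifferentiableOn.diffContOnCl
    rw [closure_ball x hR8.ne']
    exact hG.mono (hsub.trans (ball_subset_ball (by linarith)))
  have h1 := Complex.norm_deriv_le_of_forall_mem_sphere_norm_le hR8 hd
    (fun z hz => h4 z (hsub (sphere_subset_closedBall hz)))
  calc ‖deriv G x‖ ≤ 4 * m / (R / 8) := h1
    _ = 32 * m / R := by field_simp; norm_num

end WPA
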